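import Mathlib
import Pool.Agent.Helper77_Metab.Main

set_option autoImplicit false

namespace Pool.Agent.Results.MP_2b96c2_al.SeparatedNotDiscriminated

/-- The free metabelian group of rank two, `F₂ / F₂''`. -/
abbrev FreeMetabelianTwo : Type := FreeGroup (Fin 2) ⧸ derivedSeries (FreeGroup (Fin 2)) 2

/-- A set of homomorphisms is separating if every nontrivial element survives under one of them. -/
def IsSeparating {A B : Type} [Group A] [Group B] (F : Set (A →* B)) : Prop :=
  ∀ a : A, a ≠ 1 → ∃ f ∈ F, f a ≠ 1

/-- A set of homomorphisms is discriminating if for every finite list of nontrivial elements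
a single one of them is nontrivial on all entries of the list. -/
def IsDiscriminating {A B : Type} [Group A] [Group B] (F : Set (A →* B)) : Prop :=
  ∀ l : List A, (∀ a ∈ l, a ≠ 1) → ∃ f ∈ F, ∀ a ∈ l, f a ≠ 1

/-- There is a metabelian group `T` all of whose nontrivial elements have abelian centralizer,
such that some family of surjective homomorphisms from `T` onto the free metabelian group of rank
two is separating, but no family of surjective homomorphisms from `T` onto it is discriminating. -/
theorem result :
    ∃ (T : Type) (_ : Group T),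
      derivedSeries T 2 = ⊥ ∧
      (∀ t : T, t ≠ 1 → IsMulCommutative (Subgroup.centralizer {t})) ∧
      (∃ F : Set (T →* FreeMetabelianTwo),
        (∀ f ∈ F, Function.Surjective f) ∧ IsSeparating F) ∧
      ¬ ∃ F : Set (T →* FreeMetabelianTwo),
        (∀ f ∈ F, Function.Surjective f) ∧ IsDiscriminating F := by
  refine ⟨Helper77Metab.T, inferInstance, Helper77Metab.T_metabelian, ?_, ?_, ?_⟩
  · intro t ht
    apply IsMulCommutative.of_setLike_mul_comm
    intro a ha b hb
    rw [Subgroup.mem_centralizer_iff] at ha hb
    exact Helper77Metab.T_ct t ht a b (ha t rfl).symm (hb t rfl).symm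
  · refine ⟨Set.range fun p : ℤˣ × ℕ => Helper77Metab.fT p.1 p.2, ?_, ?_⟩
    · rintro _ ⟨p, rfl⟩
      exact Helper77Metab.fT_surjective p.1 p.2
    · intro a ha
      obtain ⟨e, n, h⟩ := Helper77Metab.fT_separating a ha
      exact ⟨_, ⟨(e, n), rfl⟩, h⟩
  · rintro ⟨F, hF, hd⟩
    obtain ⟨f, hf, h⟩ := hd [Helper77Metab.tA 1 0, Helper77Metab.tA (-1) 0] (by
      intro a ha
      simp only [List.mem_cons, List.not_mem_nil, or_false] at ha
      rcases ha with rfl | rfl
      · exact Helper77Metab.tA_ne_one _ _
      · exact Helper77Metab.tA_ne_one _ _)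
    exact Helper77Metab.not_both f (hF f hf) (h _ (by simp)) (h _ (by simp))

end Pool.Agent.Results.MP_2b96c2_al.SeparatedNotDiscriminated
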